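import Mathlib

namespace Pool.Agent.Results.MP_e14bb7_co.Full

open Finset

/-- Uniquely `k`-list colourable: some lists of size `k` admit exactly one proper colouring. -/
def UkLC {n : ℕ} (G : SimpleGraph (Fin n)) (k : ℕ) : Prop :=
  ∃ S : Fin n → Finset ℕ, (∀ v, (S v).card = k) ∧
    ∃! c : Fin n → ℕ, (∀ v, c v ∈ S v) ∧ ∀ u v, G.Adj u v → c u ≠ c v

variable {F : Type} [Field F] [DecidableEq F]

def N (S : Finset F) (x : F) : F := ∏ y ∈ S.erase x, (x - y)

lemma uni (S : Finset F) {d a : ℕ} (hS : S.card = d + 1) (ha : a ≤ d) :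
    ∑ x ∈ S, x ^ a / N S x = if a = d then 1 else 0 := by
  have h := Lagrange.coeff_eq_sum (s := S) (v := id) (Set.injOn_id _)
    (P := Polynomial.X ^ a) (by
      rw [Polynomial.degree_X_pow, hS]
      exact_mod_cast (by omega))
  simp only [hS, add_tsub_cancel_right, Polynomial.coeff_X_pow, id, Polynomial.eval_pow,
    Polynomial.eval_X] at h
  unfold N
  rw [← h]
  simp only [eq_comm]

noncomputable def Phi {n : ℕ} (S : Fin n → Finset F) (P : MvPolynomial (Fin n) F) : F :=
  ∑ c ∈ Fintype.piFinset S, MvPolynomial.eval c P / ∏ v, N (S v) (c v)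

lemma Phi_eq {n d : ℕ} (S : Fin n → Finset F) (hS : ∀ v, (S v).card = d + 1)
    (P : MvPolynomial (Fin n) F) (hP : P.totalDegree ≤ n * d) :
    Phi S P = ∑ a ∈ P.support, P.coeff a * if ∀ v, a v = d then 1 else 0 := by
  unfold Phi
  simp only [MvPolynomial.eval_eq', sum_div, mul_div_assoc, ← prod_div_distrib]
  rw [sum_comm]
  refine sum_congr rfl fun a ha => ?_
  rw [← mul_sum, ← prod_univ_sum (t := S) (f := fun v x => x ^ a v / N (S v) x)]
  congr 1
  split_ifs with h
  · exact prod_eq_one fun v _ => by rw [uni _ (hS v) (h v).le, if_pos (h v)]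
  · have h1 : ∑ v, a v ≤ n * d := by
      have := (MvPolynomial.le_totalDegree ha).trans hP
      rwa [Finsupp.sum_fintype _ _ (fun _ => rfl)] at this
    have : ∃ v, a v < d := by
      by_contra hc
      push Not at hc h
      obtain ⟨w, hw⟩ := h
      have : ∑ _v : Fin n, d < ∑ v, a v :=
        sum_lt_sum (fun v _ => hc v) ⟨w, mem_univ _, lt_of_le_of_ne (hc w) hw.symm⟩
      simp at this
      omega
    obtain ⟨v, hv⟩ := this
    exact prod_eq_zero (mem_univ v) (by rw [uni _ (hS v) hv.le, if_neg hv.ne])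

lemma closed (p : ℕ) [Fact p.Prime] [CharP F p] [Infinite F] (j : ℕ) :
    ∃ L : Finset F, L.card = p * j ∧ ∀ x, x + 1 ∈ L ↔ x ∈ L := by
  induction j with
  | zero => exact ⟨∅, by simp, by simp⟩
  | succ j ih =>
    obtain ⟨L, h1, h2⟩ := ih
    obtain ⟨z, hz⟩ := Infinite.exists_notMem_finset L
    let φ := ZMod.castHom (dvd_refl p) F
    have hφ : Function.Injective φ := φ.injective
    have h3 : ∀ i : ℕ, z + i ∉ L := by
      intro i
      induction i with
      | zero => simpa using hz
      | succ i ih =>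
        push_cast
        rwa [← add_assoc, h2]
    refine ⟨L ∪ univ.image (fun i : ZMod p => z + φ i), ?_, fun x => ?_⟩
    · rw [card_union_of_disjoint, card_image_of_injective _
        (fun a b h => hφ (add_left_cancel h)), h1, card_univ, ZMod.card]
      · ring
      · rw [disjoint_right]
        intro y hy
        obtain ⟨i, _, rfl⟩ := mem_image.1 hy
        rw [← ZMod.natCast_zmod_val i, map_natCast]
        exact h3 _
    · simp only [mem_union, h2, mem_image, mem_univ, true_and]
      refine or_congr Iff.rfl ⟨?_, ?_⟩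
      · rintro ⟨i, hi⟩
        exact ⟨i - 1, by rw [map_sub, map_one]; linear_combination hi⟩
      · rintro ⟨i, hi⟩
        exact ⟨i + 1, by rw [map_add, map_one]; linear_combination hi⟩

lemma N_shift (L : Finset F) (h : ∀ x, x + 1 ∈ L ↔ x ∈ L) (x : F) : N L (x + 1) = N L x := by
  unfold N
  symm
  refine prod_bij' (fun y _ => y + 1) (fun y _ => y - 1) ?_ ?_ ?_ ?_ ?_
  · intro y hy
    rw [mem_erase] at hy ⊢
    exact ⟨fun e => hy.1 (add_right_cancel e), (h y).2 hy.2⟩
  · intro y hy
    rw [mem_erase] at hy ⊢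
    exact ⟨fun e => hy.1 (by rw [← e]; ring), (h _).1 (by simpa using hy.2)⟩
  · intro y _
    ring
  · intro y _
    ring
  · intro y _
    ring

lemma shift_zero {n : ℕ} (v0 : Fin n) (L : Finset F) (h : ∀ x, x + 1 ∈ L ↔ x ∈ L)
    (f : (Fin n → F) → F) (hf : ∀ c, f (fun v => c v + 1) = f c) :
    ∑ c ∈ Fintype.piFinset (fun _ : Fin n => L), f c = 0 := by
  have : ∑ c ∈ Fintype.piFinset (fun _ : Fin n => L), f c * (c v0 + 1) =
      ∑ c ∈ Fintype.piFinset (fun _ : Fin n => L), f c * c v0 := by
    refine sum_bij' (fun c _ v => c v + 1) (fun c _ v => c v - 1) ?_ ?_ ?_ ?_ ?_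
    · intro c hc
      rw [Fintype.mem_piFinset] at hc ⊢
      exact fun v => (h _).2 (hc v)
    · intro c hc
      rw [Fintype.mem_piFinset] at hc ⊢
      exact fun v => (h _).1 (by simpa using hc v)
    · intro c _
      funext v
      ring
    · intro c _
      funext v
      ring
    · intro c _
      rw [hf]
  simp only [mul_add, mul_one, sum_add_distrib] at this
  linear_combination this

theorem result (k n : ℕ) (hk : 2 ≤ k) (hn : 1 ≤ n) (G : SimpleGraph (Fin n))
    (h : 2 * (G.edgeSet.ncard : ℚ) / n = 2 * k - 2) : ¬ UkLC G k := by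
  classical
  rintro ⟨S, hS, c0, ⟨hc1, hc2⟩, hu⟩
  obtain ⟨d, rfl⟩ : ∃ d, k = d + 1 := ⟨k - 1, by omega⟩
  have hm : G.edgeSet.ncard = n * d := by
    have hn' : (n : ℚ) ≠ 0 := by positivity
    rw [div_eq_iff hn'] at h
    push_cast at h
    have : (G.edgeSet.ncard : ℚ) = n * d := by linarith
    exact_mod_cast this
  obtain ⟨p, hp, j, hj⟩ := Nat.exists_prime_and_dvd (show d + 1 ≠ 1 by omega)
  have : Fact p.Prime := ⟨hp⟩
  let K := AlgebraicClosure (ZMod p)
  obtain ⟨L, hL1, hL2⟩ := closed (F := K) p j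
  let E := (univ : Finset (Fin n × Fin n)).filter (fun e => e.1 < e.2 ∧ G.Adj e.1 e.2)
  have hE : E.card ≤ n * d := by
    rw [← hm, ← SimpleGraph.coe_edgeFinset, Set.ncard_coe_finset]
    apply card_le_card_of_injOn (fun e => s(e.1, e.2))
    · intro e he
      simp only [E, coe_filter, mem_univ, true_and, Set.mem_ofPred_eq] at he
      simpa using he.2
    · intro e he e' he' hh
      simp only [E, coe_filter, mem_univ, true_and, Set.mem_ofPred_eq] at he he'
      rcases Sym2.eq_iff.1 hh with q | q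
      · exact Prod.ext q.1 q.2
      · exact absurd (he.1.trans_le (q.2.le.trans (he'.1.le.trans q.1.ge))) (lt_irrefl _)
  let P : MvPolynomial (Fin n) K := ∏ e ∈ E, (MvPolynomial.X e.1 - MvPolynomial.X e.2)
  have hP : P.totalDegree ≤ n * d := by
    refine (MvPolynomial.totalDegree_finsetProd _ _).trans (le_trans ?_ hE)
    rw [card_eq_sum_ones]
    refine sum_le_sum fun e _ => (MvPolynomial.totalDegree_sub _ _).trans ?_
    simp
  have hev : ∀ c : Fin n → K, MvPolynomial.eval c P = ∏ e ∈ E, (c e.1 - c e.2) := by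
    intro c
    simp [P]
  let ι := Infinite.natEmbedding K
  have e1 := Phi_eq (fun v => (S v).map ι) (fun v => by rw [card_map, hS]) P hP
  have e2 := Phi_eq (fun _ => L) (fun _ => by rw [hL1, hj]) P hP
  have e3 : Phi (fun _ => L) P = 0 :=
    shift_zero ⟨0, by omega⟩ L hL2 _ (fun c => by
      simp only [hev, N_shift L hL2, add_sub_add_right_eq_sub])
  have e4 : Phi (fun v => (S v).map ι) P = 0 := by rw [e1, ← e2, e3]
  unfold Phi at e4
  rw [sum_eq_single (fun v => ι (c0 v))] at e4
  · refine div_ne_zero ?_ ?_ e4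
    · rw [hev]
      refine prod_ne_zero_iff.2 fun e he => sub_ne_zero.2 fun q => ?_
      exact hc2 _ _ (mem_filter.1 he).2.2 (ι.injective q)
    · refine prod_ne_zero_iff.2 fun v _ => prod_ne_zero_iff.2 fun y hy => ?_
      exact sub_ne_zero.2 (mem_erase.1 hy).1.symm
  · intro c hc hne
    rw [Fintype.mem_piFinset] at hc
    choose c' hc' using fun v => mem_map.1 (hc v)
    by_contra h0
    have h1 : ∏ e ∈ E, (c e.1 - c e.2) ≠ 0 := fun q => h0 (by rw [hev, q, zero_div])
    rw [prod_ne_zero_iff] at h1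
    have h2 : ∀ u v, u < v → G.Adj u v → c' u ≠ c' v := fun u v a b q =>
      h1 (u, v) (mem_filter.2 ⟨mem_univ _, a, b⟩)
        (by rw [← (hc' u).2, ← (hc' v).2, q, sub_self])
    have := hu c' ⟨fun v => (hc' v).1, fun u v a => by
      rcases lt_or_gt_of_ne a.ne with q | q
      · exact h2 u v q a
      · exact (h2 v u q a.symm).symm⟩
    exact hne (funext fun v => by rw [← (hc' v).2, this])
  · intro h0
    exact absurd (Fintype.mem_piFinset.2 fun v => mem_map_of_mem ι (hc1 v)) h0

end Pool.Agent.Results.MP_e14bb7_co.Full
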